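import Pool.Agent.U582.BE.L1

/-!
# A basic sequence of `ℓ¹` which cannot be extended to a basis (MP_72464c_an, Q1: negative answer)

In real and in complex `ℓ¹` there is a basic sequence which is not a subsequence, in its given order,
of any basis of `ℓ¹`.

Idea of the proof. If `(y n)` is a subsequence, in its given order, of a basis of `E`, then the
partial sum projections of this basis extend the partial sum projections of `(y n)` to operators on
`E` which are uniformly bounded. On the cube `{-1, 1} ^ N × {-1, 1} ^ N`, `N = 4 ^ m`, consider the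
`N ^ 2` functions `x_i y_j`. In the space `L¹` of the cube, which is an `ℓ¹ ^ n`, they are equivalent
to an orthonormal basis, uniformly in `m`, so they form a basic sequence in each order. Put first the
functions with `H i j = 1` and then those with `H i j = -1`, where `H` is the Sylvester (Hadamard)
matrix of order `N`. Let the operator `T` be the identity on the former and zero on the latter. The
trace of the product of `T` with the convolution by `f = ∑ H i j x_i y_j` is the number of the
entries `1`, about `N ^ 2 / 2`, but it is at most `‖T‖ ‖f‖_∞ ≤ ‖T‖ N ^ (3 / 2)`. So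
`‖T‖ ≥ (N ^ (1 / 2) - 1) / 2`. The sequence consists of these functions for all `m`, in the
`ℓ¹`-sum of the spaces `L¹` of the cubes.
-/

set_option autoImplicit false

open Finset Filter Topology

namespace Pool.Agent.Results.MP_72464c_an.NotExtendable

/-- `u` is a basis of `E`: every `x` in `E` has a unique expansion which converges in norm. -/
def IsBasis (𝕜 : Type) [RCLike 𝕜] {E : Type} [NormedAddCommGroup E] [NormedSpace 𝕜 E]
    (u : ℕ → E) : Prop :=
  ∀ x : E, ∃! a : ℕ → 𝕜, Tendsto (fun n => ∑ k ∈ range n, a k • u k) atTop (𝓝 x)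

/-- `y` is a basic sequence: it is a basis of its closed linear span. -/
def IsBasicSequence (𝕜 : Type) [RCLike 𝕜] {E : Type} [NormedAddCommGroup E] [NormedSpace 𝕜 E]
    (y : ℕ → E) : Prop :=
  ∀ x ∈ (Submodule.span 𝕜 (Set.range y)).topologicalClosure,
    ∃! a : ℕ → 𝕜, Tendsto (fun n => ∑ k ∈ range n, a k • y k) atTop (𝓝 x)

/-- `y` can be extended to a basis of `E`: it is a subsequence, in its given order, of a basis. -/
def Extendable (𝕜 : Type) [RCLike 𝕜] {E : Type} [NormedAddCommGroup E] [NormedSpace 𝕜 E]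
    (y : ℕ → E) : Prop :=
  ∃ u : ℕ → E, IsBasis 𝕜 u ∧ ∃ p : ℕ → ℕ, StrictMono p ∧ ∀ n, u (p n) = y n

open Pool.Agent.U582.BE

/-- the unit vectors are a basis of `ℓ¹` -/
lemma unit_basis (𝕜 : Type) [RCLike 𝕜] :
    IsBasis 𝕜 (fun n => (lp.single 1 n (1 : 𝕜) : lp (fun _ : ℕ => 𝕜) 1)) := by
  intro x
  refine ⟨fun n => x n, ?_, ?_⟩
  · have h1 := (lp.hasSum_single (E := fun _ : ℕ => 𝕜) (p := 1) (by norm_num) x).tendsto_sum_nat
    refine h1.congr fun n => ?_
    apply Finset.sum_congr rfl
    intro k _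
    rw [← lp.single_smul, smul_eq_mul, mul_one]
  · intro a ha
    funext j
    have h1 : Tendsto (fun n => (∑ k ∈ range n, a k • (lp.single 1 k (1 : 𝕜) :
        lp (fun _ : ℕ => 𝕜) 1) : lp (fun _ : ℕ => 𝕜) 1) j) atTop (𝓝 (x j)) :=
      ((lp.evalCLM 𝕜 (fun _ : ℕ => 𝕜) 1 j).continuous.tendsto x).comp ha
    refine tendsto_nhds_unique (tendsto_const_nhds.congr' ?_) h1
    filter_upwards [eventually_gt_atTop j] with n hn
    rw [Pool.Agent.U582.BE.sum_apply', Finset.sum_eq_single j]
    · rw [lp.coeFn_smul, Pi.smul_apply, lp.single_apply_self, smul_eq_mul, mul_one]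
    · intro k _ hk
      rw [lp.coeFn_smul, Pi.smul_apply, lp.single_apply_ne _ _ _ (Ne.symm hk), smul_zero]
    · intro h
      exact absurd (Finset.mem_range.mpr hn) h

/-- **Negative answer to Q1 of MP_72464c_an**, for real and for complex scalars: the Banach space
`ℓ¹` has a basis, and it has a basic sequence which cannot be extended to a basis of `ℓ¹`. -/
theorem result (𝕜 : Type) [RCLike 𝕜] :
    ¬ FiniteDimensional 𝕜 (lp (fun _ : ℕ => 𝕜) 1) ∧
    (∃ u : ℕ → lp (fun _ : ℕ => 𝕜) 1, IsBasis 𝕜 u) ∧
    ∃ y : ℕ → lp (fun _ : ℕ => 𝕜) 1, IsBasicSequence 𝕜 y ∧ ¬ Extendable 𝕜 y := by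
  classical
  refine ⟨?_, ⟨_, unit_basis 𝕜⟩, ?_⟩
  · intro hfd
    have hli : LinearIndependent 𝕜 (fun n : ℕ => (lp.single 1 n (1 : 𝕜) :
        lp (fun _ : ℕ => 𝕜) 1)) := by
      rw [linearIndependent_iff']
      intro s g hg i hi
      have h1 : (∑ k ∈ s, g k • (lp.single 1 k (1 : 𝕜) : lp (fun _ : ℕ => 𝕜) 1) :
          lp (fun _ : ℕ => 𝕜) 1) i = 0 := by rw [hg]; rfl
      rw [Pool.Agent.U582.BE.sum_apply', Finset.sum_eq_single i] at h1
      · simpa using h1
      · intro k _ hk
        rw [lp.coeFn_smul, Pi.smul_apply, lp.single_apply_ne _ _ _ (Ne.symm hk), smul_zero]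
      · intro h
        exact absurd hi h
    exact not_finite_iff_infinite.mpr inferInstance (LinearIndependent.finite hli)
  · obtain ⟨σ, hσ⟩ := exists_enum (Γ := Gam') (fun g => Pos g.1 g.2) (fun g => g.1) (by
      intro m
      refine (Set.finite_range (fun q : Ix m × Ix m => (⟨m, q⟩ : Gam'))).subset ?_
      rintro ⟨m', q⟩ h
      have : m' = m := h
      subst this
      exact ⟨q, rfl⟩)
    refine ⟨fun n => phi (σ n), ?_, ?_⟩
    · have h1 := Pool.Agent.Results.MP_6df72f_an.BasicExtension.isBasicSeq_of_grunblum (𝕜 := 𝕜)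
        (y := fun n => (phi (σ n) : lp (fun _ : ℕ => 𝕜) 1)) (K := 9) (fun n => phi_ne_zero _) (by
          intro a m n hmn
          have h2 : ∀ k : ℕ, ∑ i ∈ range k, a i • (phi (σ i) : lp (fun _ : ℕ => 𝕜) 1) =
              ∑ g ∈ (range k).map σ.toEmbedding, a (σ.symm g) • phi g := by
            intro k
            rw [Finset.sum_map]
            simp
          rw [h2, h2]
          apply comb_le (𝕜 := 𝕜) _ (fun g => a (σ.symm g))
          apply Finset.map_subset_map.mpr
          exact Finset.range_subset_range.mpr hmn)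
      exact h1.2
    · rintro ⟨u, hu, p, hp, hpy⟩
      obtain ⟨K, P, hK, hP⟩ := exists_proj hu
      have hbig : ∀ m : ℕ, (2:ℝ) ^ m ≤ 2 * K + 1 := by
        intro m
        obtain ⟨p0, hp0⟩ := hσ m
        refine large_norm m (P (p p0)) (hK _) fun q => ?_
        have h1 : u (p (σ.symm ⟨m, q⟩)) = phi ⟨m, q⟩ := by rw [hpy]; simp
        rw [← h1, hP]
        have h2 := hp0 (σ.symm ⟨m, q⟩) (by simp)
        rw [Equiv.apply_symm_apply] at h2
        simp only [hp.lt_iff_lt, h2]
      obtain ⟨m, hm⟩ := pow_unbounded_of_one_lt (2 * K + 1) (by norm_num : (1:ℝ) < 2)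
      exact absurd (hbig m) (not_le.mpr hm)

end Pool.Agent.Results.MP_72464c_an.NotExtendable
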